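import Mathlib
import Pool.Agent.W804.PoleData

/-!
# The local complex Monge-Ampere flow cannot be started from data with a positive Lelong number

We answer Q1 in the negative. On a bounded open set `Ω` of `ℂⁿ`, `n ≥ 1` (any such set, in particular
any bounded strictly pseudoconvex domain with smooth boundary), there is no solution of the flow if the
initial datum `u₀` satisfies `u₀ ≤ c log |z - a| + C` near a point `a` of `Ω` with some `c > 0`, that is,
if the Lelong number of `u₀` at `a` is positive; this holds for every `T > 0` and all smooth boundary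
data. The function `c log |z - a|` is such a datum, it is plurisubharmonic on `ℂⁿ`, and it has smooth
boundary data.

All notions entering the statement are defined in this file, over Mathlib alone.
-/

set_option autoImplicit false

open MeasureTheory Metric Set Filter Topology
open scoped ContDiff ComplexOrder

namespace Pool.Agent.Results.MP_8f0dee_an.NoFlowFromLogPole

/-- `ℂⁿ` with its Euclidean norm. -/
abbrev Cn (n : ℕ) : Type := EuclideanSpace ℂ (Fin n)

/-- The `j`-th unit vector of `ℂⁿ`. -/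
noncomputable def bas {n : ℕ} (j : Fin n) : Cn n := EuclideanSpace.single j (1 : ℂ)

/-- The Wirtinger derivative `∂f/∂z_j = (∂f/∂x_j - i ∂f/∂y_j) / 2`. -/
noncomputable def wd {n : ℕ} (j : Fin n) (f : Cn n → ℂ) (z : Cn n) : ℂ :=
  (fderiv ℝ f z (bas j) - Complex.I * fderiv ℝ f z (Complex.I • bas j)) / 2

/-- The Wirtinger derivative `∂f/∂z̄_k = (∂f/∂x_k + i ∂f/∂y_k) / 2`. -/
noncomputable def wdb {n : ℕ} (k : Fin n) (f : Cn n → ℂ) (z : Cn n) : ℂ :=
  (fderiv ℝ f z (bas k) + Complex.I * fderiv ℝ f z (Complex.I • bas k)) / 2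

/-- The complex Hessian `(∂²u/∂z_j∂z̄_k)` of a real function. -/
noncomputable def hess {n : ℕ} (u : Cn n → ℝ) (z : Cn n) : Matrix (Fin n) (Fin n) ℂ :=
  Matrix.of fun j k => wd j (wdb k fun w => (u w : ℂ)) z

/-- Plurisubharmonic functions on an open set `Ω` of `ℂⁿ`, with values in `[-∞, ∞)`: upper
semicontinuous, and for every closed complex disc `{a + ζ b : |ζ| ≤ 1} ⊆ Ω` the value at the centre
`a` is at most the mean over the boundary circle. The mean of an upper semicontinuous function is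
the infimum of the means of its continuous majorants, which is how it is expressed here. -/
def PSH {n : ℕ} (Ω : Set (Cn n)) (u : Cn n → EReal) : Prop :=
  UpperSemicontinuousOn u Ω ∧ (∀ z ∈ Ω, u z < ⊤) ∧
  ∀ a b : Cn n, (∀ ζ : ℂ, ‖ζ‖ ≤ 1 → a + ζ • b ∈ Ω) →
    ∀ φ : ℂ → ℝ, Continuous φ →
      (∀ ζ : ℂ, ‖ζ‖ = 1 → u (a + ζ • b) ≤ ((φ ζ : ℝ) : EReal)) →
        u a ≤ ((Real.circleAverage φ 0 1 : ℝ) : EReal)

/-- `Ω` is a bounded strictly pseudoconvex domain with smooth boundary: it is open, connected and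
bounded, and near its boundary it is given by `ρ < 0` for a smooth function `ρ` with positive definite
complex Hessian whose differential has no zero on the boundary. -/
def StrictlyPseudoconvex {n : ℕ} (Ω : Set (Cn n)) : Prop :=
  IsOpen Ω ∧ IsConnected Ω ∧ Bornology.IsBounded Ω ∧
  ∃ (U : Set (Cn n)) (ρ : Cn n → ℝ), IsOpen U ∧ frontier Ω ⊆ U ∧ ContDiffOn ℝ ∞ ρ U ∧
    (∀ z ∈ U, (hess ρ z).PosDef) ∧ (∀ z ∈ U, z ∈ Ω ↔ ρ z < 0) ∧ ∀ z ∈ frontier Ω, fderiv ℝ ρ z ≠ 0

/-- `φ` is admissible boundary data for `u₀` on `[0, T)`: `φ ∈ C^∞(closure Ω × [0, T))`, and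
`φ(z, t) = u₀(z)` for `z ∈ ∂Ω` and `t ∈ [0, T)`. -/
def IsBoundaryData {n : ℕ} (Ω : Set (Cn n)) (T : ℝ) (u0 : Cn n → EReal) (φ : Cn n → ℝ → ℝ) : Prop :=
  ContDiffOn ℝ ∞ (fun p : Cn n × ℝ => φ p.1 p.2) (closure Ω ×ˢ Ico 0 T) ∧
  ∀ z ∈ frontier Ω, ∀ t ∈ Ico 0 T, ((φ z t : ℝ) : EReal) = u0 z

/-- `u` is a solution of the flow with initial datum `u₀` and boundary data `φ`. -/
structure IsSolution {n : ℕ} (Ω : Set (Cn n)) (T : ℝ) (u0 : Cn n → EReal) (φ u : Cn n → ℝ → ℝ) :
    Prop where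
  /-- `u ∈ C^∞(closure Ω × (0, T))`. -/
  smooth : ContDiffOn ℝ ∞ (fun p : Cn n × ℝ => u p.1 p.2) (closure Ω ×ˢ Ioo 0 T)
  /-- For each `t ∈ (0, T)` the function `u(·, t)` is strictly plurisubharmonic in `Ω`. -/
  strictly_psh : ∀ t ∈ Ioo 0 T, ∀ z ∈ Ω, (hess (fun w => u w t) z).PosDef
  /-- `∂u/∂t = log det(∂²u/∂z_i∂z̄_j)` on `Ω × (0, T)`. -/
  flow : ∀ t ∈ Ioo 0 T, ∀ z ∈ Ω,
    deriv (fun s => u z s) t = Real.log (hess (fun w => u w t) z).det.re
  /-- `u = φ` on `∂Ω × (0, T)`. -/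
  boundary : ∀ t ∈ Ioo 0 T, ∀ z ∈ frontier Ω, u z t = φ z t
  /-- `u(z, t) → u₀(z)` as `t → 0⁺` for every `z ∈ closure Ω`, the limit being taken in `[-∞, ∞)`. -/
  initial : ∀ z ∈ closure Ω, Tendsto (fun t => ((u z t : ℝ) : EReal)) (𝓝[>] 0) (𝓝 (u0 z))

/-- The function `c log |z - a|`, with the value `-∞` at `a`. -/
noncomputable def pole {n : ℕ} (a : Cn n) (c : ℝ) (z : Cn n) : EReal :=
  if z = a then ⊥ else ((c * Real.log ‖z - a‖ : ℝ) : EReal)

/-- **Q1, answered in the negative.** Let `n ≥ 1`.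

(1) Let `Ω` be any bounded open set of `ℂⁿ`, `T > 0`, and let `u₀ ≤ c log |z - a| + C` near a point
`a ∈ Ω`, where `c > 0`. Then for no boundary data `φ` is there a solution of the flow on
`Ω × (0, T)` with initial datum `u₀`.

(2) For every `a` and `c > 0` the function `c log |z - a|` is plurisubharmonic on `ℂⁿ`; for every
bounded open set `Ω` containing `a` and every `T > 0` there is boundary data for it, which is even the
restriction of a smooth function on `ℂⁿ × ℝ`, and there is no solution of the flow with this initial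
datum, whatever the boundary data.

(3) The unit ball is a bounded strictly pseudoconvex domain with smooth boundary. -/
theorem result {n : ℕ} (hn : 1 ≤ n) :
    (∀ (Ω : Set (Cn n)), IsOpen Ω → Bornology.IsBounded Ω → ∀ T : ℝ, 0 < T →
      ∀ (u0 : Cn n → EReal) (a : Cn n), a ∈ Ω → ∀ c C : ℝ, 0 < c →
      (∀ᶠ z in 𝓝[≠] a, u0 z ≤ ((c * Real.log ‖z - a‖ + C : ℝ) : EReal)) →
      ∀ φ : Cn n → ℝ → ℝ, IsBoundaryData Ω T u0 φ → ¬ ∃ u, IsSolution Ω T u0 φ u) ∧
    (∀ (a : Cn n) (c : ℝ), 0 < c → PSH univ (pole a c) ∧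
      ∀ Ω : Set (Cn n), IsOpen Ω → Bornology.IsBounded Ω → a ∈ Ω → ∀ T : ℝ, 0 < T →
        (∃ φ : Cn n → ℝ → ℝ, ContDiff ℝ ∞ (fun p : Cn n × ℝ => φ p.1 p.2) ∧
          IsBoundaryData Ω T (pole a c) φ) ∧
        ∀ φ : Cn n → ℝ → ℝ, IsBoundaryData Ω T (pole a c) φ → ¬ ∃ u, IsSolution Ω T (pole a c) φ u) ∧
    StrictlyPseudoconvex (ball (0 : Cn n) 1) := by
  have h1 : ∀ (Ω : Set (Cn n)), IsOpen Ω → Bornology.IsBounded Ω → ∀ T : ℝ, 0 < T →
      ∀ (u0 : Cn n → EReal) (a : Cn n), a ∈ Ω → ∀ c C : ℝ, 0 < c →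
      (∀ᶠ z in 𝓝[≠] a, u0 z ≤ ((c * Real.log ‖z - a‖ + C : ℝ) : EReal)) →
      ∀ φ : Cn n → ℝ → ℝ, IsBoundaryData Ω T u0 φ → ¬ ∃ u, IsSolution Ω T u0 φ u := by
    rintro Ω hΩ hb T hT u0 a ha c C hc hpole φ hφ ⟨u, hu⟩
    exact Pool.Agent.W804.no_solution hn hΩ hb hT ha hc hpole hφ.1.continuousOn hu.smooth
      hu.strictly_psh hu.flow hu.boundary hu.initial
  refine ⟨h1, ?_, ?_⟩
  · intro a c hc
    refine ⟨Pool.Agent.W804.pole_psh a hc univ, ?_⟩
    intro Ω hΩ hb ha T hT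
    constructor
    · obtain ⟨φ, hφ1, hφ2⟩ := Pool.Agent.W804.pole_bdry a (c := c) hΩ ha
      have hs : ContDiff ℝ ∞ (fun p : Cn n × ℝ => φ p.1) := hφ1.comp contDiff_fst
      refine ⟨fun z _ => φ z, hs, hs.contDiffOn, ?_⟩
      intro z hz t _
      refine hφ2 z fun hzΩ => ?_
      rw [hΩ.frontier_eq] at hz
      exact hz.2 hzΩ
    · intro φ hφ
      refine h1 Ω hΩ hb T hT (pole a c) a ha c 0 hc ?_ φ hφ
      filter_upwards [self_mem_nhdsWithin] with z hz
      rw [pole, if_neg (show z ≠ a from hz), add_zero]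
  · refine ⟨isOpen_ball, (convex_ball (0 : Cn n) 1).isConnected ⟨0, mem_ball_self one_pos⟩,
      isBounded_ball, univ, fun z => ‖z‖ ^ 2 - 1, isOpen_univ, subset_univ _,
      Pool.Agent.H805R2.nsq_smooth.contDiffOn, ?_, ?_, ?_⟩
    · intro z _
      have : hess (fun w : Cn n => ‖w‖ ^ 2 - 1) z = 1 := Pool.Agent.H805R2.nsq_hess z
      rw [this]
      exact Matrix.PosDef.one
    · intro z _
      rw [mem_ball_zero_iff]
      constructor
      · intro h
        nlinarith [norm_nonneg z]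
      · intro h
        nlinarith [norm_nonneg z]
    · intro z hz h0
      have hz1 : ‖z‖ = 1 := by
        have := frontier_ball_subset_sphere hz
        simpa using this
      have h2 := Pool.Agent.H805R2.nsq_fderiv z z
      have h3 : fderiv ℝ (fun z : Cn n => ‖z‖ ^ 2 - 1) z z = 0 := by
        rw [h0]; rfl
      rw [h3] at h2
      simp [hz1] at h2

end Pool.Agent.Results.MP_8f0dee_an.NoFlowFromLogPole
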